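import Mathlib
import Pool.Agent.Helper12.Toep.Rec
import Pool.Agent.Helper12.Toep.Poisson

/-!
# The top of the spectrum of Gaussian Toeplitz matrices does not converge to a Poisson process
-/

set_option autoImplicit false

open MeasureTheory ProbabilityTheory Filter Topology

namespace Pool.Agent.Results.MP_0d5435_pr.NotPoisson

noncomputable section

/-- The symmetric Toeplitz matrix `T_n = (x_{|i-j|})`. -/
def toeplitz (n : ℕ) (x : ℕ → ℝ) : Matrix (Fin n) (Fin n) ℝ :=
  Matrix.of fun i j => x (((i : ℕ) : ℤ) - ((j : ℕ) : ℤ)).natAbs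

theorem toeplitz_isHermitian (n : ℕ) (x : ℕ → ℝ) : (toeplitz n x).IsHermitian :=
  Pool.Agent.Helper12.Toep.toeplitz_isHermitian n x

/-- The number of eigenvalues `λ` of `T_n`, counted with multiplicity, with `(λ - a) / b ∈ I`. -/
def count (n : ℕ) (x : ℕ → ℝ) (a b : ℝ) (I : Set ℝ) : ℕ :=
  Set.ncard {i : Fin n | ((toeplitz_isHermitian n x).eigenvalues i - a) / b ∈ I}

/-- The top of the spectrum of `T_n`, shifted by `a n` and scaled by `b n`, converges to the Poisson
point process with intensity `c e^{-η t}`: for every finite family of pairwise disjoint,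
bounded-below intervals, the joint law of the numbers of points in these intervals converges to the
law of independent Poisson variables with means `∫_I c e^{-η t} dt`. -/
def TopPoisson {Ω : Type*} [MeasurableSpace Ω] (P : Measure Ω) (X : ℕ → Ω → ℝ) (a b : ℕ → ℝ)
    (c η : ℝ) : Prop :=
  ∀ (k : ℕ) (I : Fin k → Set ℝ), (∀ j, (I j).OrdConnected) → (∀ j, BddBelow (I j)) →
    (∀ i j, i ≠ j → Disjoint (I i) (I j)) → ∀ m : Fin k → ℕ,
    Tendsto (fun n => P.real {ω | ∀ j, count n (fun i => X i ω) (a n) (b n) (I j) = m j}) atTop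
      (𝓝 (∏ j, Real.exp (-∫ t in I j, c * Real.exp (-η * t)) *
        (∫ t in I j, c * Real.exp (-η * t)) ^ m j / (m j).factorial))

lemma count_eq (n : ℕ) (x : ℕ → ℝ) (a b : ℝ) (I : Set ℝ) :
    count n x a b I = Pool.Agent.Helper12.Toep.count n x a b I := rfl

lemma measurableSet_count_Ioi (n : ℕ) (a b s : ℝ) (hb : 0 < b) (m : ℕ) :
    MeasurableSet {x : ℕ → ℝ | count n x a b (Set.Ioi s) = m} := by
  have h := Pool.Agent.Helper12.Toep.measurable_nev_Ioi n (a + b * s)
  have h1 : {x : ℕ → ℝ | count n x a b (Set.Ioi s) = m} =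
      (fun x => Pool.Agent.Helper12.Toep.nev n x (Set.Ioi (a + b * s))) ⁻¹' {m} := by
    ext x
    show count n x a b (Set.Ioi s) = m ↔ _
    rw [count_eq, Pool.Agent.Helper12.Toep.Poi.count_Ioi n x a hb s]
    rfl
  rw [h1]
  exact h (measurableSet_singleton m)

lemma measurableSet_count_Ioc (n : ℕ) (a b s t : ℝ) (hb : 0 < b) (hst : s < t) (m : ℕ) :
    MeasurableSet {x : ℕ → ℝ | count n x a b (Set.Ioc s t) = m} := by
  have hle : a + b * s ≤ a + b * t := by
    have := mul_le_mul_of_nonneg_left hst.le hb.le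
    linarith
  have h := Pool.Agent.Helper12.Toep.measurableSet_nev_Ioc n m hle
  have h1 : {x : ℕ → ℝ | count n x a b (Set.Ioc s t) = m} =
      {x | Pool.Agent.Helper12.Toep.nev n x (Set.Ioc (a + b * s) (a + b * t)) = m} := by
    ext x
    show count n x a b (Set.Ioc s t) = m ↔ Pool.Agent.Helper12.Toep.nev n x _ = m
    rw [count_eq, Pool.Agent.Helper12.Toep.Poi.count_Ioc n x a hb s t]
  rw [h1]
  exact h

/-- **Theorem.** For independent standard Gaussian entries no choice of `a_n`, `b_n > 0` and
`c, η > 0` makes the top of the spectrum of `T_n` converge to the Poisson point process with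
intensity `c e^{-η t}`. -/
theorem result {Ω : Type*} [MeasurableSpace Ω] (P : Measure Ω) [IsProbabilityMeasure P]
    (X : ℕ → Ω → ℝ) (hX : ∀ k, Measurable (X k)) (hind : iIndepFun X P)
    (hlaw : ∀ k, P.map (X k) = gaussianReal 0 1) :
    ¬ ∃ (a b : ℕ → ℝ) (c η : ℝ), (∀ n, 0 < b n) ∧ 0 < c ∧ 0 < η ∧ TopPoisson P X a b c η := by
  rintro ⟨a, b, c, η, hb, hc, hη, hT⟩
  -- the law of the sequence
  have hmeas : Measurable (fun ω i => X i ω) := measurable_pi_lambda _ hX
  have hseq : P.map (fun ω i => X i ω) = Pool.Agent.Helper12.Toep.gam := by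
    rw [(iIndepFun_iff_map_fun_eq_infinitePi_map hX).mp hind]
    unfold Pool.Agent.Helper12.Toep.gam
    congr 1
    funext k
    exact hlaw k
  have htrans : ∀ S : Set (ℕ → ℝ), MeasurableSet S →
      P.real {ω | (fun i => X i ω) ∈ S} = Pool.Agent.Helper12.Toep.gam.real S := by
    intro S hS
    rw [← hseq, map_measureReal_apply hmeas hS]
    rfl
  have hone : ∀ (J : Set ℝ) (m : ℕ), J.OrdConnected → BddBelow J →
      Tendsto (fun n => P.real {ω | count n (fun i => X i ω) (a n) (b n) J = m}) atTop
        (𝓝 (Real.exp (-∫ t in J, c * Real.exp (-η * t)) *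
          (∫ t in J, c * Real.exp (-η * t)) ^ m / m.factorial)) := by
    intro J m h1 h2
    have h := hT 1 (fun _ => J) (fun _ => h1) (fun _ => h2)
      (fun i j hij => absurd (Subsingleton.elim i j) hij) (fun _ => m)
    simpa using h
  refine Pool.Agent.Helper12.Toep.no_gap (Pool.Agent.Helper12.Toep.gap_of_poisson a b c η hb hc hη
    ?_ ?_)
  · intro s m
    have h := hone (Set.Ioi s) m Set.ordConnected_Ioi bddBelow_Ioi
    refine h.congr fun n => ?_
    exact htrans {x | count n x (a n) (b n) (Set.Ioi s) = m}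
      (measurableSet_count_Ioi n (a n) (b n) s (hb n) m)
  · intro s t m hst
    have h := hone (Set.Ioc s t) m Set.ordConnected_Ioc bddBelow_Ioc
    refine h.congr fun n => ?_
    exact htrans {x | count n x (a n) (b n) (Set.Ioc s t) = m}
      (measurableSet_count_Ioc n (a n) (b n) s t (hb n) hst m)

end

end Pool.Agent.Results.MP_0d5435_pr.NotPoisson
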